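import Pool.Agent.H29.RT.Targets

/-!
# Karamata's Tauberian theorem
-/

set_option autoImplicit false

namespace Pool.Agent.H81.RT

open MeasureTheory Set Filter Topology Pool.Agent.H29.RT

namespace KRV

/-- The weights. -/
noncomputable def wt (b : ℕ → ℝ) (L : ℝ) (k : ℕ) : ℝ := b k * (k : ℝ) ^ (-(1 + 1 / L) : ℝ)

/-- The points. -/
noncomputable def yk (L : ℝ) (k : ℕ) : ℝ := (k : ℝ) ^ (-(1 / L) : ℝ)

/-- The functional. -/
noncomputable def Fn (b : ℕ → ℝ) (L : ℝ) (g : ℝ → ℝ) : ℝ := ∑' k, wt b L k * g (yk L k)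

/-- The limit functional. -/
noncomputable def Ps (α : ℝ) (g : ℝ → ℝ) : ℝ :=
  ∫ t in Ioi (0 : ℝ), (Real.exp (-t) * t ^ (α - 1)) * g (Real.exp (-t))

/-- The continuous test functions. -/
noncomputable def gt (x x' : ℝ) (y : ℝ) : ℝ :=
  max 0 (min 1 ((y - Real.exp (-x')) / (Real.exp (-x) - Real.exp (-x')))) / max y (Real.exp (-x'))

theorem gt_cont (x x' : ℝ) : Continuous (gt x x') := by
  unfold gt
  refine Continuous.div (by fun_prop) (by fun_prop) fun y => ?_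
  have : 0 < max y (Real.exp (-x')) := lt_max_of_lt_right (Real.exp_pos _)
  exact this.ne'

theorem gt_nonneg (x x' y : ℝ) : 0 ≤ gt x x' y := by
  unfold gt
  exact div_nonneg (le_max_left _ _) ((Real.exp_pos _).le.trans (le_max_right _ _))

theorem gt_low {x x' y : ℝ} (hx : x < x') (hy : Real.exp (-x) ≤ y) : gt x x' y = 1 / y := by
  have h1 : Real.exp (-x') < Real.exp (-x) := Real.exp_lt_exp.2 (by linarith)
  unfold gt
  rw [max_eq_left (h1.le.trans hy), min_eq_left, max_eq_right (by norm_num)]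
  rw [le_div_iff₀ (by linarith)]
  linarith

theorem gt_high {x x' y : ℝ} (hx : x < x') (hy : y ≤ Real.exp (-x')) : gt x x' y = 0 := by
  have h1 : Real.exp (-x') < Real.exp (-x) := Real.exp_lt_exp.2 (by linarith)
  unfold gt
  rw [max_eq_left, zero_div]
  refine (min_le_right _ _).trans ?_
  exact div_nonpos_of_nonpos_of_nonneg (by linarith) (by linarith)

theorem gt_le {x x' y : ℝ} (hy : 0 < y) : gt x x' y ≤ 1 / y := by
  unfold gt
  refine div_le_div₀ (by norm_num) ?_ hy (le_max_left _ _)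
  exact max_le (by norm_num) (min_le_left _ _)

section

variable {b : ℕ → ℝ} {α : ℝ}

theorem yk_nonneg (L : ℝ) (k : ℕ) : 0 ≤ yk L k := Real.rpow_nonneg (Nat.cast_nonneg k) _

theorem yk_le {L : ℝ} (hL : 0 < L) (k : ℕ) : yk L k ≤ 1 := by
  unfold yk
  rcases Nat.eq_zero_or_pos k with rfl | hk
  · rw [Nat.cast_zero, Real.zero_rpow]
    · norm_num
    · exact neg_ne_zero.2 (by positivity)
  · exact Real.rpow_le_one_of_one_le_of_nonpos (by exact_mod_cast hk)
      (neg_nonpos.2 (by positivity))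

theorem yk_mem {L : ℝ} (hL : 0 < L) (k : ℕ) : yk L k ∈ Icc (0 : ℝ) 1 :=
  ⟨yk_nonneg L k, yk_le hL k⟩

theorem wt_nonneg (hb : ∀ k, 0 ≤ b k) (L : ℝ) (k : ℕ) : 0 ≤ wt b L k :=
  mul_nonneg (hb k) (Real.rpow_nonneg (Nat.cast_nonneg k) _)

theorem wt_pow {L : ℝ} (hL : 0 < L) (k j : ℕ) :
    wt b L k * yk L k ^ j = b k * (k : ℝ) ^ (-(1 + ((j + 1 : ℕ) : ℝ) / L) : ℝ) := by
  unfold wt yk
  rcases Nat.eq_zero_or_pos k with rfl | hk
  · have e1 : (0 : ℝ) ^ (-(1 + 1 / L) : ℝ) = 0 :=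
      Real.zero_rpow (neg_ne_zero.2 (by positivity))
    have e2 : (0 : ℝ) ^ (-(1 + ((j + 1 : ℕ) : ℝ) / L) : ℝ) = 0 :=
      Real.zero_rpow (neg_ne_zero.2 (by positivity))
    rw [Nat.cast_zero, e1, e2, mul_zero, zero_mul]
  · have hk' : (0 : ℝ) < k := by exact_mod_cast hk
    rw [mul_assoc, ← Real.rpow_natCast, ← Real.rpow_mul hk'.le, ← Real.rpow_add hk']
    congr 2
    push_cast
    ring

theorem summ_wt (hs : ∀ σ : ℝ, 0 < σ → Summable fun k : ℕ => b k * (k : ℝ) ^ (-(1 + σ) : ℝ))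
    {L : ℝ} (hL : 0 < L) : Summable (wt b L) := hs (1 / L) (by positivity)

theorem summ (hb : ∀ k, 0 ≤ b k)
    (hs : ∀ σ : ℝ, 0 < σ → Summable fun k : ℕ => b k * (k : ℝ) ^ (-(1 + σ) : ℝ))
    {L : ℝ} (hL : 0 < L) {g : ℝ → ℝ} (hg : ContinuousOn g (Icc 0 1)) :
    Summable fun k => wt b L k * g (yk L k) := by
  obtain ⟨C, hC⟩ := isCompact_Icc.exists_bound_of_continuousOn hg
  refine Summable.of_norm_bounded ((summ_wt hs hL).mul_right C) fun k => ?_
  rw [norm_mul, Real.norm_of_nonneg (wt_nonneg hb L k)]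
  exact mul_le_mul_of_nonneg_left (hC _ (yk_mem hL k)) (wt_nonneg hb L k)

theorem G_pos (hb : ∀ k, 0 ≤ b k) (h1 : 0 < b 1)
    (hs : ∀ σ : ℝ, 0 < σ → Summable fun k : ℕ => b k * (k : ℝ) ^ (-(1 + σ) : ℝ))
    {L : ℝ} (hL : 0 < L) : 0 < ∑' k, wt b L k := by
  refine (summ_wt hs hL).tsum_pos (fun k => wt_nonneg hb L k) 1 ?_
  unfold wt
  simpa using h1

/-- The functional is a contraction. -/
theorem Fn_close (hb : ∀ k, 0 ≤ b k) (h1 : 0 < b 1)
    (hs : ∀ σ : ℝ, 0 < σ → Summable fun k : ℕ => b k * (k : ℝ) ^ (-(1 + σ) : ℝ))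
    {L : ℝ} (hL : 0 < L) {f g : ℝ → ℝ} (hf : ContinuousOn f (Icc 0 1))
    (hg : ContinuousOn g (Icc 0 1)) {ε : ℝ} (h : ∀ y ∈ Icc (0 : ℝ) 1, |f y - g y| ≤ ε) :
    |Fn b L f / (∑' k, wt b L k) - Fn b L g / (∑' k, wt b L k)| ≤ ε := by
  have hG := G_pos hb h1 hs hL
  rw [← sub_div, abs_div, abs_of_pos hG, div_le_iff₀ hG]
  unfold Fn
  rw [← (summ hb hs hL hf).tsum_sub (summ hb hs hL hg), ← tsum_mul_left, ← Real.norm_eq_abs]
  refine tsum_of_norm_bounded ((summ_wt hs hL).mul_left ε).hasSum fun k => ?_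
  rw [← mul_sub, norm_mul, Real.norm_of_nonneg (wt_nonneg hb L k), mul_comm]
  exact mul_le_mul_of_nonneg_right (h _ (yk_mem hL k)) (wt_nonneg hb L k)

theorem int_w (hα : 0 < α) : IntegrableOn (fun t : ℝ => Real.exp (-t) * t ^ (α - 1)) (Ioi 0) :=
  Real.GammaIntegral_convergent hα

theorem exp_mem {t : ℝ} (ht : t ∈ Ioi (0 : ℝ)) : Real.exp (-t) ∈ Icc (0 : ℝ) 1 :=
  ⟨(Real.exp_pos _).le, Real.exp_le_one_iff.2 (neg_nonpos.2 (le_of_lt ht))⟩

theorem int_g (hα : 0 < α) {g : ℝ → ℝ} (hg : ContinuousOn g (Icc 0 1)) :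
    IntegrableOn (fun t : ℝ => (Real.exp (-t) * t ^ (α - 1)) * g (Real.exp (-t))) (Ioi 0) := by
  obtain ⟨C, hC⟩ := isCompact_Icc.exists_bound_of_continuousOn hg
  refine Integrable.mul_bdd (c := C) (int_w hα) ?_ ?_
  · refine ContinuousOn.aestronglyMeasurable ?_ measurableSet_Ioi
    exact hg.comp (by fun_prop) fun t ht => exp_mem ht
  · exact (ae_restrict_iff' measurableSet_Ioi).2 (Eventually.of_forall fun t ht => hC _ (exp_mem ht))

theorem w_nonneg {t : ℝ} (ht : t ∈ Ioi (0 : ℝ)) : 0 ≤ Real.exp (-t) * t ^ (α - 1) :=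
  mul_nonneg (Real.exp_pos _).le (Real.rpow_nonneg (le_of_lt ht) _)

theorem Ps_close (hα : 0 < α) {f g : ℝ → ℝ} (hf : ContinuousOn f (Icc 0 1))
    (hg : ContinuousOn g (Icc 0 1)) {ε : ℝ} (h : ∀ y ∈ Icc (0 : ℝ) 1, |f y - g y| ≤ ε) :
    |Ps α f / Real.Gamma α - Ps α g / Real.Gamma α| ≤ ε := by
  have hG := Real.Gamma_pos_of_pos hα
  rw [← sub_div, abs_div, abs_of_pos hG, div_le_iff₀ hG]
  unfold Ps
  rw [← integral_sub (int_g hα hf) (int_g hα hg), Real.Gamma_eq_integral hα, ← integral_const_mul,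
    ← Real.norm_eq_abs]
  refine norm_integral_le_of_norm_le ((int_w hα).const_mul ε) ?_
  refine (ae_restrict_iff' measurableSet_Ioi).2 (Eventually.of_forall fun t ht => ?_)
  rw [← mul_sub, norm_mul, Real.norm_of_nonneg (w_nonneg ht), mul_comm]
  exact mul_le_mul_of_nonneg_right (h _ (exp_mem ht)) (w_nonneg ht)

theorem Ps_pow (hα : 0 < α) (j : ℕ) :
    Ps α (fun y => y ^ j) / Real.Gamma α = ((j + 1 : ℕ) : ℝ) ^ (-α) := by
  have hG := Real.Gamma_pos_of_pos hα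
  have hj : (0 : ℝ) < ((j + 1 : ℕ) : ℝ) := by positivity
  have h := Real.integral_rpow_mul_exp_neg_mul_Ioi hα hj
  unfold Ps
  have e : (∫ t in Ioi (0 : ℝ), (Real.exp (-t) * t ^ (α - 1)) * Real.exp (-t) ^ j) =
      ∫ t in Ioi (0 : ℝ), t ^ (α - 1) * Real.exp (-(((j + 1 : ℕ) : ℝ) * t)) := by
    refine integral_congr_ae (Eventually.of_forall fun t => ?_)
    simp only
    rw [← Real.exp_nat_mul, mul_comm (Real.exp (-t)), mul_assoc, ← Real.exp_add]
    congr 2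
    push_cast
    ring
  rw [e, h, mul_div_assoc, div_self hG.ne', mul_one, one_div, Real.inv_rpow hj.le,
    Real.rpow_neg hj.le]

/-- The convergence for polynomials. -/
theorem lim_poly (hα : 0 < α) (hb : ∀ k, 0 ≤ b k)
    (hs : ∀ σ : ℝ, 0 < σ → Summable fun k : ℕ => b k * (k : ℝ) ^ (-(1 + σ) : ℝ))
    (hm : ∀ s : ℕ, 1 ≤ s → Tendsto (fun L : ℝ => (∑' k : ℕ, b k * (k : ℝ) ^ (-(1 + s / L) : ℝ)) /
      ∑' k : ℕ, b k * (k : ℝ) ^ (-(1 + 1 / L) : ℝ)) atTop (𝓝 ((s : ℝ) ^ (-α))))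
    (p : Polynomial ℝ) :
    Tendsto (fun L => Fn b L (fun y => p.eval y) / ∑' k, wt b L k) atTop
      (𝓝 (Ps α (fun y => p.eval y) / Real.Gamma α)) := by
  have hc : ∀ q : Polynomial ℝ, ContinuousOn (fun y => q.eval y) (Icc (0 : ℝ) 1) := fun q =>
    q.continuous.continuousOn
  induction p using Polynomial.induction_on' with
  | add p q hp hq =>
    have e : Ps α (fun y => (p + q).eval y) / Real.Gamma α =
        Ps α (fun y => p.eval y) / Real.Gamma α + Ps α (fun y => q.eval y) / Real.Gamma α := by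
      unfold Ps
      rw [← add_div, ← integral_add (int_g hα (hc p)) (int_g hα (hc q))]
      congr 1
      refine integral_congr_ae (Eventually.of_forall fun t => ?_)
      simp only [Polynomial.eval_add]
      ring
    rw [e]
    refine (hp.add hq).congr' ?_
    filter_upwards [eventually_gt_atTop 0] with L hL
    rw [← add_div]
    unfold Fn
    rw [← (summ hb hs hL (hc p)).tsum_add (summ hb hs hL (hc q))]
    congr 1
    refine tsum_congr fun k => ?_
    simp only [Polynomial.eval_add]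
    ring
  | monomial j a =>
    have e : Ps α (fun y => (Polynomial.monomial j a).eval y) / Real.Gamma α =
        a * ((j + 1 : ℕ) : ℝ) ^ (-α) := by
      rw [← Ps_pow hα j, ← mul_div_assoc]
      unfold Ps
      rw [← integral_const_mul]
      congr 1
      refine integral_congr_ae (Eventually.of_forall fun t => ?_)
      simp only [Polynomial.eval_monomial]
      ring
    rw [e]
    refine ((hm (j + 1) (by omega)).const_mul a).congr' ?_
    filter_upwards [eventually_gt_atTop 0] with L hL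
    rw [← mul_div_assoc]
    unfold Fn
    rw [← tsum_mul_left]
    have e1 : (∑' k : ℕ, b k * (k : ℝ) ^ (-(1 + 1 / L) : ℝ)) = ∑' k, wt b L k := rfl
    rw [e1]
    congr 1
    refine tsum_congr fun k => ?_
    rw [← wt_pow hL k j]
    simp only [Polynomial.eval_monomial]
    ring

/-- The convergence for continuous functions. -/
theorem lim_cont (hα : 0 < α) (hb : ∀ k, 0 ≤ b k) (h1 : 0 < b 1)
    (hs : ∀ σ : ℝ, 0 < σ → Summable fun k : ℕ => b k * (k : ℝ) ^ (-(1 + σ) : ℝ))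
    (hm : ∀ s : ℕ, 1 ≤ s → Tendsto (fun L : ℝ => (∑' k : ℕ, b k * (k : ℝ) ^ (-(1 + s / L) : ℝ)) /
      ∑' k : ℕ, b k * (k : ℝ) ^ (-(1 + 1 / L) : ℝ)) atTop (𝓝 ((s : ℝ) ^ (-α))))
    {g : ℝ → ℝ} (hg : ContinuousOn g (Icc 0 1)) :
    Tendsto (fun L => Fn b L g / ∑' k, wt b L k) atTop (𝓝 (Ps α g / Real.Gamma α)) := by
  rw [Metric.tendsto_nhds]
  intro ε hε
  obtain ⟨p, hp⟩ := exists_polynomial_near_of_continuousOn 0 1 g hg (ε / 4) (by positivity)
  have hc : ContinuousOn (fun y => p.eval y) (Icc (0 : ℝ) 1) := p.continuous.continuousOn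
  have hl := (Metric.tendsto_nhds.1 (lim_poly hα hb hs hm p)) (ε / 4) (by positivity)
  have c2 := Ps_close hα hc hg fun y hy => (hp y hy).le
  filter_upwards [hl, eventually_gt_atTop 0] with L h2 hL
  have c1 := Fn_close hb h1 hs hL hc hg fun y hy => (hp y hy).le
  rw [Real.dist_eq] at h2 ⊢
  rw [abs_le] at c1 c2
  rw [abs_lt] at h2 ⊢
  constructor <;> linarith [c1.1, c1.2, c2.1, c2.2, h2.1, h2.2]

/-- The mass of an interval. -/
theorem int_pow (hα : 0 < α) {x : ℝ} (hx : 0 < x) :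
    (∫ t in Ioc (0 : ℝ) x, t ^ (α - 1)) = x ^ α / α := by
  rw [← intervalIntegral.integral_of_le hx.le, integral_rpow (Or.inl (by linarith)), sub_add_cancel,
    Real.zero_rpow hα.ne', sub_zero]

theorem int_pow_on (hα : 0 < α) {x : ℝ} (hx : 0 < x) :
    IntegrableOn (fun t : ℝ => t ^ (α - 1)) (Ioc 0 x) := by
  rw [← intervalIntegrable_iff_integrableOn_Ioc_of_le hx.le]
  exact intervalIntegral.intervalIntegrable_rpow' (by linarith)

theorem Ps_lower (hα : 0 < α) {x x' : ℝ} (hx : 0 < x) (hxx : x < x') :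
    x ^ α / α ≤ Ps α (gt x x') := by
  rw [← int_pow hα hx]
  unfold Ps
  have e : (∫ t in Ioc (0 : ℝ) x, t ^ (α - 1)) = ∫ t in Ioc (0 : ℝ) x,
      (Real.exp (-t) * t ^ (α - 1)) * gt x x' (Real.exp (-t)) := by
    refine setIntegral_congr_fun measurableSet_Ioc fun t ht => ?_
    rw [gt_low hxx (Real.exp_le_exp.2 (neg_le_neg ht.2))]
    have := (Real.exp_pos (-t)).ne'
    field_simp
  rw [e]
  refine setIntegral_mono_set (int_g hα (gt_cont x x').continuousOn) ?_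
    (LE.le.eventuallyLE fun t ht => ht.1)
  exact (ae_restrict_iff' measurableSet_Ioi).2
    (Eventually.of_forall fun t ht => mul_nonneg (w_nonneg ht) (gt_nonneg _ _ _))

theorem Ps_upper (hα : 0 < α) {x x' : ℝ} (hx : 0 < x) (hxx : x < x') :
    Ps α (gt x x') ≤ x' ^ α / α := by
  rw [← int_pow hα (hx.trans hxx)]
  unfold Ps
  have e : (∫ t in Ioi (0 : ℝ), (Real.exp (-t) * t ^ (α - 1)) * gt x x' (Real.exp (-t))) =
      ∫ t in Ioc (0 : ℝ) x', (Real.exp (-t) * t ^ (α - 1)) * gt x x' (Real.exp (-t)) := by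
    refine (setIntegral_eq_of_subset_of_forall_sdiff_eq_zero measurableSet_Ioi
      (fun t ht => ht.1) fun t ht => ?_)
    have h2 : x' < t := by
      by_contra h
      exact ht.2 ⟨ht.1, not_lt.1 h⟩
    rw [gt_high hxx (Real.exp_le_exp.2 (neg_le_neg h2.le)), mul_zero]
  rw [e]
  refine setIntegral_mono_on ((int_g hα (gt_cont x x').continuousOn).mono_set fun t ht => ht.1)
    (int_pow_on hα (hx.trans hxx)) measurableSet_Ioc fun t ht => ?_
  have h0 := Real.exp_pos (-t)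
  have h1 : gt x x' (Real.exp (-t)) ≤ 1 / Real.exp (-t) := gt_le h0
  have h2 : 0 ≤ Real.exp (-t) * t ^ (α - 1) := w_nonneg ht.1
  calc (Real.exp (-t) * t ^ (α - 1)) * gt x x' (Real.exp (-t))
      ≤ (Real.exp (-t) * t ^ (α - 1)) * (1 / Real.exp (-t)) := mul_le_mul_of_nonneg_left h1 h2
    _ = t ^ (α - 1) := by field_simp

/-- Membership in the interval. -/
theorem mem_iff {L : ℝ} (hL : 0 < L) {x : ℝ} {k : ℕ} (hk : 1 ≤ k) :
    (k : ℝ) ≤ Real.exp (x * L) ↔ Real.exp (-x) ≤ yk L k := by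
  have hk' : (0 : ℝ) < k := by exact_mod_cast hk
  unfold yk
  rw [Real.rpow_def_of_pos hk', Real.exp_le_exp, ← Real.log_le_iff_le_exp hk']
  constructor
  · intro h
    have : Real.log k * (1 / L) ≤ x := by
      rw [mul_one_div, div_le_iff₀ hL]
      exact h
    linarith
  · intro h
    have : Real.log k * (1 / L) ≤ x := by linarith
    rw [mul_one_div, div_le_iff₀ hL] at this
    exact this

theorem wt_inv {L : ℝ} {k : ℕ} (hk : 1 ≤ k) : wt b L k * (1 / yk L k) = b k / k := by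
  have hk' : (0 : ℝ) < k := by exact_mod_cast hk
  have e : 1 / yk L k = (k : ℝ) ^ (1 / L : ℝ) := by
    unfold yk
    rw [Real.rpow_neg hk'.le, one_div, inv_inv]
  rw [e]
  unfold wt
  rw [mul_assoc, ← Real.rpow_add hk', show (-(1 + 1 / L) + 1 / L : ℝ) = -1 by ring,
    Real.rpow_neg_one, div_eq_mul_inv]

theorem yk_pos {L : ℝ} {k : ℕ} (hk : 1 ≤ k) : 0 < yk L k :=
  Real.rpow_pos_of_pos (by exact_mod_cast hk) _

theorem low (hb : ∀ k, 0 ≤ b k)
    (hs : ∀ σ : ℝ, 0 < σ → Summable fun k : ℕ => b k * (k : ℝ) ^ (-(1 + σ) : ℝ))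
    {L : ℝ} (hL : 0 < L) {x x' : ℝ} (hxx : x < x') :
    ∑ k ∈ Finset.Icc 1 ⌊Real.exp (x * L)⌋₊, b k / k ≤ Fn b L (gt x x') := by
  unfold Fn
  refine le_trans (le_of_eq ?_) ((summ hb hs hL (gt_cont x x').continuousOn).sum_le_tsum
    (Finset.Icc 1 ⌊Real.exp (x * L)⌋₊)
    fun k _ => mul_nonneg (wt_nonneg hb L k) (gt_nonneg _ _ _))
  refine Finset.sum_congr rfl fun k hk => ?_
  rw [Finset.mem_Icc] at hk
  have h2 : (k : ℝ) ≤ Real.exp (x * L) := (Nat.le_floor_iff (Real.exp_pos _).le).1 hk.2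
  rw [gt_low hxx ((mem_iff hL hk.1).1 h2), wt_inv hk.1]

theorem up (hb : ∀ k, 0 ≤ b k) {L : ℝ} (hL : 0 < L) {x x' : ℝ} (hxx : x < x') :
    Fn b L (gt x x') ≤ ∑ k ∈ Finset.Icc 1 ⌊Real.exp (x' * L)⌋₊, b k / k := by
  unfold Fn
  rw [tsum_eq_sum (s := Finset.Icc 1 ⌊Real.exp (x' * L)⌋₊)]
  · refine Finset.sum_le_sum fun k hk => ?_
    rw [Finset.mem_Icc] at hk
    rw [← wt_inv hk.1]
    exact mul_le_mul_of_nonneg_left (gt_le (yk_pos hk.1)) (wt_nonneg hb L k)
  · intro k hk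
    rcases Nat.eq_zero_or_pos k with rfl | hk0
    · have : wt b L 0 = 0 := by
        unfold wt
        rw [Nat.cast_zero, Real.zero_rpow, mul_zero]
        exact neg_ne_zero.2 (by positivity)
      rw [this, zero_mul]
    · have h2 : ¬ (k : ℝ) ≤ Real.exp (x' * L) := by
        intro h
        exact hk (Finset.mem_Icc.2 ⟨hk0, (Nat.le_floor_iff (Real.exp_pos _).le).2 h⟩)
      rw [mem_iff hL hk0, not_le] at h2
      rw [gt_high hxx h2.le, mul_zero]

/-- The limit of the normalized sums. -/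
theorem lim (hα : 0 < α) (hb : ∀ k, 0 ≤ b k) (h1 : 0 < b 1)
    (hs : ∀ σ : ℝ, 0 < σ → Summable fun k : ℕ => b k * (k : ℝ) ^ (-(1 + σ) : ℝ))
    (hm : ∀ s : ℕ, 1 ≤ s → Tendsto (fun L : ℝ => (∑' k : ℕ, b k * (k : ℝ) ^ (-(1 + s / L) : ℝ)) /
      ∑' k : ℕ, b k * (k : ℝ) ^ (-(1 + 1 / L) : ℝ)) atTop (𝓝 ((s : ℝ) ^ (-α))))
    {x : ℝ} (hx : 0 < x) :
    Tendsto (fun L : ℝ => (∑ k ∈ Finset.Icc 1 ⌊Real.exp (x * L)⌋₊, b k / k) / ∑' k, wt b L k) atTop
      (𝓝 (x ^ α / α / Real.Gamma α)) := by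
  have hG := Real.Gamma_pos_of_pos hα
  have hcont : ContinuousAt (fun x : ℝ => x ^ α / α / Real.Gamma α) x :=
    ((Real.continuousAt_rpow_const x α (Or.inl hx.ne')).div_const _).div_const _
  rw [tendsto_order]
  constructor
  · intro a ha
    have h2 : ∀ᶠ y in 𝓝 x, a < y ^ α / α / Real.Gamma α := hcont.eventually (lt_mem_nhds ha)
    obtain ⟨y, hy1, hy2, hy3⟩ : ∃ y, a < y ^ α / α / Real.Gamma α ∧ 0 < y ∧ y < x := by
      have h3 : ∀ᶠ y in 𝓝[<] x, a < y ^ α / α / Real.Gamma α := nhdsWithin_le_nhds h2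
      have h4 : ∀ᶠ y in 𝓝[<] x, 0 < y := nhdsWithin_le_nhds (lt_mem_nhds hx)
      have h5 : ∀ᶠ y in 𝓝[<] x, y < x := self_mem_nhdsWithin
      exact (h3.and (h4.and h5)).exists
    have hP : a < Ps α (gt y x) / Real.Gamma α :=
      hy1.trans_le (div_le_div_of_nonneg_right (Ps_lower hα hy2 hy3) hG.le)
    have hl := (lim_cont hα hb h1 hs hm (gt_cont y x).continuousOn).eventually (lt_mem_nhds hP)
    filter_upwards [hl, eventually_gt_atTop 0] with L h3 hL
    exact h3.trans_le (div_le_div_of_nonneg_right (up hb hL hy3) (G_pos hb h1 hs hL).le)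
  · intro a ha
    have h2 : ∀ᶠ y in 𝓝 x, y ^ α / α / Real.Gamma α < a := hcont.eventually (gt_mem_nhds ha)
    obtain ⟨y, hy1, hy3⟩ : ∃ y, y ^ α / α / Real.Gamma α < a ∧ x < y := by
      have h3 : ∀ᶠ y in 𝓝[>] x, y ^ α / α / Real.Gamma α < a := nhdsWithin_le_nhds h2
      have h5 : ∀ᶠ y in 𝓝[>] x, x < y := self_mem_nhdsWithin
      exact (h3.and h5).exists
    have hP : Ps α (gt x y) / Real.Gamma α < a :=
      (div_le_div_of_nonneg_right (Ps_upper hα hx hy3) hG.le).trans_lt hy1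
    have hl := (lim_cont hα hb h1 hs hm (gt_cont x y).continuousOn).eventually (gt_mem_nhds hP)
    filter_upwards [hl, eventually_gt_atTop 0] with L h3 hL
    exact (div_le_div_of_nonneg_right (low hb hs hL hy3) (G_pos hb h1 hs hL).le).trans_lt h3

end

end KRV

open KRV in
theorem pf_KRV : T_KRV := by
  intro b α hα hb h1 hs hm x hx
  have hG := Real.Gamma_pos_of_pos hα
  have l1 := (lim hα hb h1 hs hm hx).comp Real.tendsto_log_atTop
  have l2 := (lim hα hb h1 hs hm one_pos).comp Real.tendsto_log_atTop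
  have h0 : (1 : ℝ) ^ α / α / Real.Gamma α ≠ 0 := by
    rw [Real.one_rpow]
    positivity
  have l3 := l1.div l2 h0
  have e : x ^ α / α / Real.Gamma α / ((1 : ℝ) ^ α / α / Real.Gamma α) = x ^ α := by
    rw [Real.one_rpow]
    field_simp
  rw [e] at l3
  refine l3.congr' ?_
  filter_upwards [eventually_gt_atTop 1] with T hT
  have hL : 0 < Real.log T := Real.log_pos hT
  have hT0 : 0 < T := by linarith
  have hg := G_pos hb h1 hs hL
  have e1 : Real.exp (x * Real.log T) = T ^ x := by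
    rw [Real.rpow_def_of_pos hT0, mul_comm]
  have e2 : Real.exp (1 * Real.log T) = T := by rw [one_mul, Real.exp_log hT0]
  simp only [Function.comp_def, Pi.div_apply]
  rw [e1, e2, div_div_div_cancel_right₀ hg.ne']

end Pool.Agent.H81.RT
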